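import Pool.Agent.Lib.Sm.I.Mean

/-!
Group theory for the induced form of the Chebotarev theorem: `GN` is a normal subgroup of finite
index of `G`, `N` a normal subgroup of `GN` such that `GN/N` has exponent dividing `4`, `core N` the
largest normal subgroup of `G` contained in `N`; the extension by zero `ext f` of a function `f` on
`GN` and the induced class function `ind`.
-/

set_option autoImplicit false

namespace Pool.Agent.SmBn

variable {G : Type*} [Group G] {GN : Subgroup G}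

/-- The normal core in `G` of a subgroup of `GN`. -/
def core (N : Subgroup GN) : Subgroup G := (N.map GN.subtype).normalCore

instance core_normal (N : Subgroup GN) : (core N).Normal := Subgroup.normalCore_normal _

theorem mem_core {N : Subgroup GN} {s : G} :
    s ∈ core N ↔ ∀ g : G, ∃ h : g * s * g⁻¹ ∈ GN, (⟨_, h⟩ : GN) ∈ N := by
  have h0 : s ∈ core N ↔ ∀ g : G, g * s * g⁻¹ ∈ N.map GN.subtype := Iff.rfl
  rw [h0]
  refine forall_congr' fun g => ?_
  constructor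
  · rintro ⟨n, hn, hn2⟩
    have h1 : g * s * g⁻¹ ∈ GN := by
      rw [← hn2]
      exact n.2
    refine ⟨h1, ?_⟩
    have h2 : (⟨_, h1⟩ : GN) = n := Subtype.ext hn2.symm
    rw [h2]
    exact hn
  · rintro ⟨h, hN⟩
    exact ⟨_, hN, rfl⟩

theorem core_le (N : Subgroup GN) : core N ≤ GN := by
  intro s hs
  obtain ⟨h, -⟩ := mem_core.1 hs 1
  simpa using h

theorem mem_of_core {N : Subgroup GN} {s : G} (hs : s ∈ core N) :
    (⟨s, core_le N hs⟩ : GN) ∈ N := by
  obtain ⟨h, hN⟩ := mem_core.1 hs 1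
  have h1 : (⟨1 * s * 1⁻¹, h⟩ : GN) = ⟨s, core_le N hs⟩ := Subtype.ext (by group)
  rwa [h1] at hN

theorem pow_four_mem_core [GN.Normal] {N : Subgroup GN} (h4 : ∀ s : GN, s ^ 4 ∈ N) {s : G}
    (hs : s ∈ GN) : s ^ 4 ∈ core N := by
  rw [mem_core]
  intro g
  have h1 : g * s * g⁻¹ ∈ GN := Subgroup.Normal.conj_mem inferInstance s hs g
  have h2 : g * s ^ 4 * g⁻¹ = (g * s * g⁻¹) ^ 4 := by rw [conj_pow]
  have h3 : g * s ^ 4 * g⁻¹ ∈ GN := by
    rw [h2]
    exact GN.pow_mem h1 4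
  refine ⟨h3, ?_⟩
  have h5 := h4 ⟨_, h1⟩
  have h6 : (⟨_, h3⟩ : GN) = (⟨_, h1⟩ : GN) ^ 4 := Subtype.ext h2
  rw [h6]
  exact h5

theorem pow_mem_core [GN.Normal] {N : Subgroup GN} (h4 : ∀ s : GN, s ^ 4 ∈ N) (s : G) :
    s ^ (4 * GN.index) ∈ core N := by
  rw [mul_comm, pow_mul]
  exact pow_four_mem_core h4 (Subgroup.pow_index_mem GN s)

open Classical in
/-- The extension by zero. -/
noncomputable def ext (f : GN → ℝ) (s : G) : ℝ := if h : s ∈ GN then f ⟨s, h⟩ else 0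

theorem ext_of_mem (f : GN → ℝ) {s : G} (h : s ∈ GN) : ext f s = f ⟨s, h⟩ := by
  unfold ext
  rw [dif_pos h]

theorem ext_of_notMem (f : GN → ℝ) {s : G} (h : s ∉ GN) : ext f s = 0 := by
  unfold ext
  rw [dif_neg h]

theorem ext_abs {f : GN → ℝ} (hf : ∀ s, |f s| ≤ 1) (s : G) : |ext f s| ≤ 1 := by
  by_cases h : s ∈ GN
  · rw [ext_of_mem f h]
    exact hf _
  · rw [ext_of_notMem f h]
    simp

theorem ext_mul {f : GN → ℝ} {N : Subgroup GN} (hf : ∀ s, ∀ n ∈ N, f (s * n) = f s) (s : G)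
    {n : G} (hn : n ∈ core N) : ext f (s * n) = ext f s := by
  have hnG := core_le N hn
  by_cases h : s ∈ GN
  · rw [ext_of_mem f h, ext_of_mem f (GN.mul_mem h hnG)]
    exact hf ⟨s, h⟩ ⟨n, hnG⟩ (mem_of_core hn)
  · have h1 : s * n ∉ GN := fun h2 => h ((GN.mul_mem_cancel_right hnG).1 h2)
    rw [ext_of_notMem f h, ext_of_notMem f h1]

theorem ext_conj [GN.Normal] {f : GN → ℝ} (hf : ∀ s t, f (t * s * t⁻¹) = f s) (s : G) {t : G}
    (ht : t ∈ GN) : ext f (t * s * t⁻¹) = ext f s := by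
  by_cases h : s ∈ GN
  · rw [ext_of_mem f h, ext_of_mem f (Subgroup.Normal.conj_mem inferInstance s h t)]
    exact hf ⟨s, h⟩ ⟨t, ht⟩
  · have h1 : t * s * t⁻¹ ∉ GN := by
      intro h2
      apply h
      have h3 := Subgroup.Normal.conj_mem (H := GN) inferInstance _ h2 t⁻¹
      have h4 : t⁻¹ * (t * s * t⁻¹) * t⁻¹⁻¹ = s := by group
      rwa [h4] at h3
    rw [ext_of_notMem f h, ext_of_notMem f h1]

theorem ext_odd {f : GN → ℝ} {g0 : GN} (hf : ∀ s, f (s * g0) = - f s) (s : G) :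
    ext f (s * g0) = - ext f s := by
  by_cases h : s ∈ GN
  · rw [ext_of_mem f h, ext_of_mem f (GN.mul_mem h g0.2)]
    exact hf ⟨s, h⟩
  · have h1 : s * (g0 : G) ∉ GN := fun h2 => h ((GN.mul_mem_cancel_right g0.2).1 h2)
    rw [ext_of_notMem f h, ext_of_notMem f h1, neg_zero]

theorem ext_out [GN.Normal] {f : GN → ℝ} (hf : ∀ s t, f (t * s * t⁻¹) = f s) (s g : G) :
    ext f ((g : G ⧸ GN).out * s * (g : G ⧸ GN).out⁻¹) = ext f (g * s * g⁻¹) := by
  obtain ⟨n, hn⟩ := QuotientGroup.mk_out_eq_mul GN g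
  have h1 : g * (n : G) * g⁻¹ ∈ GN := Subgroup.Normal.conj_mem inferInstance _ n.2 g
  have h2 : (g : G ⧸ GN).out * s * (g : G ⧸ GN).out⁻¹ =
      (g * (n : G) * g⁻¹) * (g * s * g⁻¹) * (g * (n : G) * g⁻¹)⁻¹ := by
    rw [hn]
    group
  rw [h2]
  exact ext_conj hf _ h1

/-- The induced class function. -/
noncomputable def ind [Fintype (G ⧸ GN)] (f : GN → ℝ) (s : G) : ℝ :=
  ∑ c : G ⧸ GN, ext f (c.out * s * c.out⁻¹)

theorem ind_conj [GN.Normal] [Fintype (G ⧸ GN)] {f : GN → ℝ}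
    (hf : ∀ s t, f (t * s * t⁻¹) = f s) (s t : G) : ind f (t * s * t⁻¹) = ind f s := by
  unfold ind
  refine Fintype.sum_equiv (Equiv.mulRight (t : G ⧸ GN)) _ _ ?_
  intro c
  change ext f (c.out * (t * s * t⁻¹) * c.out⁻¹) =
    ext f ((c * (t : G ⧸ GN)).out * s * (c * (t : G ⧸ GN)).out⁻¹)
  have h1 : c * (t : G ⧸ GN) = ((c.out * t : G) : G ⧸ GN) := by
    rw [QuotientGroup.mk_mul, QuotientGroup.out_eq']
  rw [h1, ext_out hf]
  congr 1
  group

theorem ind_mul [Fintype (G ⧸ GN)] {f : GN → ℝ} {N : Subgroup GN}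
    (hf : ∀ s, ∀ n ∈ N, f (s * n) = f s) (s : G) {n : G} (hn : n ∈ core N) :
    ind f (s * n) = ind f s := by
  unfold ind
  refine Finset.sum_congr rfl fun c _ => ?_
  have h1 : c.out * (s * n) * c.out⁻¹ = (c.out * s * c.out⁻¹) * (c.out * n * c.out⁻¹) := by group
  rw [h1]
  exact ext_mul hf _ (Subgroup.Normal.conj_mem inferInstance n hn _)

theorem ind_abs [Fintype (G ⧸ GN)] {f : GN → ℝ} (hf : ∀ s, |f s| ≤ 1) (s : G) :
    |ind f s| ≤ GN.index := by
  unfold ind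
  refine (Finset.abs_sum_le_sum_abs _ _).trans ?_
  refine (Finset.sum_le_sum fun c _ => ext_abs hf _).trans ?_
  rw [Finset.sum_const, Finset.card_univ, ← Nat.card_eq_fintype_card, nsmul_eq_mul, mul_one]
  rfl

theorem ind_of_notMem [GN.Normal] [Fintype (G ⧸ GN)] {f : GN → ℝ} {s : G} (hs : s ∉ GN) :
    ind f s = 0 := by
  unfold ind
  refine Finset.sum_eq_zero fun c _ => ext_of_notMem f ?_
  intro h2
  apply hs
  have h3 := Subgroup.Normal.conj_mem (H := GN) inferInstance _ h2 c.out⁻¹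
  have h4 : c.out⁻¹ * (c.out * s * c.out⁻¹) * c.out⁻¹⁻¹ = s := by group
  rwa [h4] at h3

/-- A set of representatives. -/
theorem sum_rep [GN.Normal] [Fintype (G ⧸ GN)] {f : GN → ℝ}
    (hf : ∀ s t, f (t * s * t⁻¹) = f s) {R : Finset G}
    (hR : ∀ g : G, ∃! h, h ∈ R ∧ g⁻¹ * h ∈ GN) (s : G) :
    ∑ g ∈ R, ext f (g * s * g⁻¹) = ind f s := by
  unfold ind
  refine Finset.sum_bij (fun g _ => (g : G ⧸ GN)) (fun _ _ => Finset.mem_univ _) ?_ ?_ ?_
  · intro g hg g' hg' h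
    obtain ⟨h0, -, h2⟩ := hR g
    have h3 : g⁻¹ * g' ∈ GN := QuotientGroup.eq.1 h
    rw [h2 g ⟨hg, by rw [inv_mul_cancel]; exact GN.one_mem⟩, h2 g' ⟨hg', h3⟩]
  · intro c _
    obtain ⟨h, ⟨h1, h2⟩, -⟩ := hR c.out
    refine ⟨h, h1, ?_⟩
    have h3 : ((c.out : G) : G ⧸ GN) = (h : G ⧸ GN) := QuotientGroup.eq.2 h2
    rw [← h3, QuotientGroup.out_eq']
  · intro g _
    exact (ext_out hf s g).symm

/-- The index of the core. -/
theorem core_index_le [GN.Normal] [GN.FiniteIndex] {N : Subgroup GN} [N.Normal] [N.FiniteIndex] :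
    (core N).index ≤ GN.index * N.index ^ GN.index := by
  classical
  have hft : Finite (G ⧸ GN) := Subgroup.finite_quotient_of_finiteIndex
  have hft2 : Finite (GN ⧸ N) := Subgroup.finite_quotient_of_finiteIndex
  have h1 := Subgroup.relIndex_mul_index (core_le N)
  rw [← h1, mul_comm]
  refine Nat.mul_le_mul_left _ ?_
  have hcard : Nat.card (G ⧸ GN → GN ⧸ N) = N.index ^ GN.index := by
    rw [Nat.card_fun]
    rfl
  rw [← hcard]
  refine Pool.Agent.Sm.index_le_card ((core N).subgroupOf GN)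
    (fun s : GN => fun c : G ⧸ GN => (((⟨c.out * s * c.out⁻¹,
      Subgroup.Normal.conj_mem inferInstance _ s.2 _⟩ : GN)) : GN ⧸ N)) ?_
  intro s t hst
  change ((s⁻¹ * t : GN) : G) ∈ core N
  rw [mem_core]
  intro g
  have h2 := congrFun hst (g : G ⧸ GN)
  rw [QuotientGroup.eq] at h2
  obtain ⟨n, hn⟩ := QuotientGroup.mk_out_eq_mul GN g
  have h3 : g * ((s⁻¹ * t : GN) : G) * g⁻¹ ∈ GN :=
    Subgroup.Normal.conj_mem inferInstance _ (s⁻¹ * t).2 g
  refine ⟨h3, ?_⟩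
  have h4 : g * (n : G) * g⁻¹ ∈ GN := Subgroup.Normal.conj_mem inferInstance _ n.2 g
  have h5 := Subgroup.Normal.conj_mem (H := N) inferInstance _ h2 (⟨_, h4⟩⁻¹ : GN)
  convert h5 using 1
  apply Subtype.ext
  change g * ((s : G)⁻¹ * (t : G)) * g⁻¹ = (g * (n : G) * g⁻¹)⁻¹ *
    (((g : G ⧸ GN).out * (s : G) * (g : G ⧸ GN).out⁻¹)⁻¹ *
      ((g : G ⧸ GN).out * (t : G) * (g : G ⧸ GN).out⁻¹)) * (g * (n : G) * g⁻¹)⁻¹⁻¹
  rw [hn]
  group

/-- The index of the core is the product of the index of `GN` and a power of `2`. -/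
theorem core_index [GN.Normal] [GN.FiniteIndex] {N : Subgroup GN} [N.Normal] [N.FiniteIndex]
    (h4 : ∀ s : GN, s ^ 4 ∈ N) : ∃ m : ℕ, (core N).index = 2 ^ m * GN.index := by
  have h1 := Subgroup.relIndex_mul_index (core_le N)
  have hfi : (core N).FiniteIndex := by
    refine ⟨?_⟩
    have h2 : (N.map GN.subtype).FiniteIndex := by
      refine ⟨?_⟩
      rw [Subgroup.index_map_subtype]
      exact mul_ne_zero Subgroup.FiniteIndex.index_ne_zero Subgroup.FiniteIndex.index_ne_zero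
    exact (Subgroup.finiteIndex_normalCore (H := N.map GN.subtype)).index_ne_zero
  have hfin : Finite (GN ⧸ (core N).subgroupOf GN) := by
    have : ((core N).subgroupOf GN).FiniteIndex := inferInstance
    exact Subgroup.finite_quotient_of_finiteIndex
  have hp : IsPGroup 2 (GN ⧸ (core N).subgroupOf GN) := by
    intro g
    obtain ⟨σ, rfl⟩ := QuotientGroup.mk_surjective g
    refine ⟨2, ?_⟩
    rw [← QuotientGroup.mk_pow]
    refine (QuotientGroup.eq_one_iff _).mpr ?_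
    exact pow_four_mem_core h4 σ.2
  have : Fact (Nat.Prime 2) := ⟨Nat.prime_two⟩
  obtain ⟨m, hm⟩ := IsPGroup.iff_card.mp hp
  refine ⟨m, ?_⟩
  rw [← h1, ← hm]
  rfl

/-- The commutator subgroup of `GN` is contained in the one of `G`. -/
theorem commutator_sub {g : GN} (hg : g ∈ commutator GN) : (g : G) ∈ commutator G := by
  have h1 : (commutator GN).map GN.subtype ≤ commutator G := by
    rw [commutator_def, commutator_def, Subgroup.map_commutator]
    exact Subgroup.commutator_mono le_top le_top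
  exact h1 ⟨g, hg, rfl⟩

end Pool.Agent.SmBn
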