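import Pool.Agent.Lib.SmBn.B1
import Pool.Agent.Lib.SmBn.Grp
import Pool.Agent.Lib.SmB.P5Fin
import Pool.Agent.Lib.SmB.P5Cst
import Pool.Agent.Lib.SmD.Gen
import Pool.Agent.Lib.SmD.Const
import Pool.Agent.Lib.SmD.NN
import Pool.Agent.Lib.SmN.I.MeanN

/-!
Chebotarev with square root error over `k(t)` in the induced form `ChebInd` of block I of SmN
(SMITH without rational 2-torsion), for the chosen Frobenius elements `ph` and tame inertia
elements `sg` at the places of `k(t)`. `GN` is any open normal subgroup of index prime to the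
characteristic.
-/

set_option autoImplicit false

namespace Pool.Agent.SmBn

open Pool.Agent.Lib.SmD Pool.Agent.SmD Pool.Agent.BSDFF Polynomial Module Pool.Agent.SmB

/-- Every open normal subgroup is `Gal(Om/L)` for a finite Galois extension `L`. -/
theorem exists_field_of_open {K Om : Type*} [Field K] [Field Om] [Algebra K Om] [IsGalois K Om]
    {N : Subgroup (Om ≃ₐ[K] Om)} (h1 : N.Normal) (h2 : IsOpen (N : Set (Om ≃ₐ[K] Om))) :
    ∃ L : IntermediateField K Om, FiniteDimensional K L ∧ IsGalois K L ∧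
      L.fixingSubgroup = N ∧ N.index = finrank K L := by
  have hcl : IsClosed (N : Set (Om ≃ₐ[K] Om)) := N.isClosed_of_isOpen h2
  have e1 : (IntermediateField.fixedField N).fixingSubgroup = N :=
    InfiniteGalois.fixingSubgroup_fixedField ⟨N, hcl⟩
  have hfd : FiniteDimensional K (IntermediateField.fixedField N) := by
    rw [← InfiniteGalois.isOpen_iff_finite, e1]
    exact h2
  have hgal : IsGalois K (IntermediateField.fixedField N) := by
    rw [← InfiniteGalois.normal_iff_isGalois, e1]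
    exact h1
  exact ⟨_, hfd, hgal, e1, by rw [← index_fixingSubgroup, e1]⟩

variable {k : Type} [Field k] [Finite k] {Om : Type} [Field Om] [Algebra (RatFunc k) Om]

private theorem Ind_pow {R : Type*} [Monoid R] {x : R} {q n : ℕ} (h : x ^ q ^ n = x) (j : ℕ) :
    x ^ q ^ (n * j) = x := by
  induction j with
  | zero => simp
  | succ j ih => rw [Nat.mul_succ, pow_add, pow_mul, ih, h]

private theorem Ind_sqrt {q : ℕ} (hq : 1 ≤ q) {d : ℕ} (hd : 4 ∣ d) :
    √((q : ℝ) ^ (d + 1)) ≤ q * (q : ℝ) ^ (d / 2) := by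
  have hq' : (1 : ℝ) ≤ q := by exact_mod_cast hq
  rw [Real.sqrt_le_left (by positivity)]
  obtain ⟨e, rfl⟩ := hd
  have h1 : 4 * e / 2 = 2 * e := by omega
  rw [h1, mul_pow, ← pow_mul, ← pow_add]
  exact pow_le_pow_right₀ hq' (by omega)

/-- The constants of the fixed field of `core N`, and the sum over the automorphisms compatible with
the `d`-th power of Frobenius. -/
theorem const_pow [IsGalois (RatFunc k) Om] {L : IntermediateField (RatFunc k) Om}
    [FiniteDimensional (RatFunc k) L] [IsGalois (RatFunc k) L]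
    [Algebra k[X] L] [IsScalarTower k[X] (RatFunc k) L] [Algebra k L] [IsScalarTower k k[X] L]
    {e : ℕ} (he : ∀ σ : Om ≃ₐ[RatFunc k] Om, σ ^ e ∈ L.fixingSubgroup) {d : ℕ} (hd : e ∣ d)
    {x : L} (hx : IsIntegral k x) : x ^ (Nat.card k) ^ d = x := by
  obtain ⟨p, hp⟩ := CharP.exists k
  have hft := Fintype.ofFinite k
  obtain ⟨⟨a, ha⟩, hprime, hcard⟩ := FiniteField.card k p
  have hpf : Fact p.Prime := ⟨hprime⟩
  have hq : Nat.card k = p ^ a := by
    rw [Nat.card_eq_fintype_card, hcard]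
    rfl
  have hchar : CharP Om p :=
    charP_of_injective_ringHom
      ((algebraMap (RatFunc k) Om).comp (algebraMap k (RatFunc k))).injective p
  obtain ⟨m, hm, hxm⟩ := exists_period_of_integral hx
  have hφ := ph_frob (Om := Om) (placeOf (X : k[X]) irreducible_X)
  have hcst : IsCst p (x : Om) := by
    refine ⟨a * m, Nat.mul_pos ha hm, ?_⟩
    rw [pow_mul, ← hq]
    exact_mod_cast congrArg (Subtype.val) hxm
  have h1 : ∀ y : Om, IsCst p y → ph Om (placeOf (X : k[X]) irreducible_X) y =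
      y ^ Nat.card k := by
    intro y hy
    rw [hφ.cst hy, resCard_placeOf, natDegree_X, pow_one]
  have h3 : ∀ j : ℕ, (ph Om (placeOf (X : k[X]) irreducible_X) ^ j) (x : Om) =
      (x : Om) ^ (Nat.card k) ^ j := by
    intro j
    induction j with
    | zero => simp
    | succ j ih =>
      rw [pow_succ', AlgEquiv.mul_apply, ih, map_pow, h1 _ hcst, ← pow_mul, pow_succ' _ j]
  have h5 : (ph Om (placeOf (X : k[X]) irreducible_X) ^ e) (x : Om) = x :=
    (IntermediateField.mem_fixingSubgroup_iff _ _).1 (he _) x x.2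
  have h7 : x ^ (Nat.card k) ^ e = x := by
    apply Subtype.ext
    rw [h3] at h5
    exact_mod_cast h5
  obtain ⟨j, rfl⟩ := hd
  exact Ind_pow h7 j

/-- Chebotarev in the induced form. -/
theorem chebInd [IsGalois (RatFunc k) Om] [IsSepClosed Om] (h2 : (2 : k) ≠ 0)
    (NN : Set (Subgroup (Om ≃ₐ[RatFunc k] Om)))
    (hNN : ∀ N ∈ NN, N.Normal ∧ IsOpen (N : Set (Om ≃ₐ[RatFunc k] Om)))
    (GN : Subgroup (Om ≃ₐ[RatFunc k] Om)) [GN.Normal]
    (hGN : IsOpen (GN : Set (Om ≃ₐ[RatFunc k] Om))) (hidx : ((GN.index : ℕ) : k) ≠ 0)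
    (Br : Finset k[X]) (hBr : ∀ (P : k[X]) (h : Irreducible P), P.Monic → P ∉ Br →
      iner (RatFunc k) (ab Om (placeOf P h)) ≤ GN)
    (sg' ph' : k[X] → Om ≃ₐ[RatFunc k] Om)
    (hsg : ∀ (P : k[X]) (h : Irreducible P), P.Monic → sg' P = sg Om (placeOf P h))
    (hph : ∀ (P : k[X]) (h : Irreducible P), P.Monic → ph' P = ph Om (placeOf P h)) :
    Pool.Agent.SmN.ChebInd NN GN Br sg' ph' (Nat.card k) (4 * GN.index)
      (12 * GN.index ^ 5 * Nat.card k) (4 * GN.index) := by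
  classical
  intro N hNn hN0 h4 f hf1 hfc hfb hg d r hd B hBrB hB hr R hR E hE
  obtain ⟨N0, hN0, hN0N⟩ := hN0
  obtain ⟨g0, hg0, hgf⟩ := hg
  have hq1 : 1 ≤ Nat.card k := Nat.card_pos
  rcases Nat.eq_zero_or_pos d with hd0 | hd0
  · have hE0 : E = ∅ := by
      rw [Finset.eq_empty_iff_forall_notMem]
      intro P hP
      obtain ⟨-, p2, p3, -⟩ := (hE P).1 hP
      have := p2.natDegree_pos
      omega
    rw [hE0, Finset.sum_empty, abs_zero]
    positivity
  have hfinG : Finite ((Om ≃ₐ[RatFunc k] Om) ⧸ GN) := Subgroup.quotient_finite_of_isOpen GN hGN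
  have hfi : GN.FiniteIndex := Subgroup.finiteIndex_of_finite_quotient
  have hftG : Fintype ((Om ≃ₐ[RatFunc k] Om) ⧸ GN) := Fintype.ofFinite _
  -- the core
  have hN0c : N0 ≤ core N := by
    have h1 : N0 ≤ N.map GN.subtype := by
      intro s hs
      obtain ⟨h, hN⟩ := hN0N s hs
      exact ⟨_, hN, rfl⟩
    have := (hNN N0 hN0).1
    exact Subgroup.normal_le_normalCore.2 h1
  have hopen : IsOpen (core N : Set (Om ≃ₐ[RatFunc k] Om)) :=
    Subgroup.isOpen_mono hN0c (hNN N0 hN0).2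
  have hfiN : N.FiniteIndex := by
    have h1 : Finite ((Om ≃ₐ[RatFunc k] Om) ⧸ core N) :=
      Subgroup.quotient_finite_of_isOpen (core N) hopen
    have h3 : (core N).FiniteIndex := Subgroup.finiteIndex_of_finite_quotient
    have h5 : (core N).subgroupOf GN ≤ N := by
      intro s hs
      exact mem_of_core hs
    have h6 : ((core N).subgroupOf GN).FiniteIndex := inferInstance
    exact Subgroup.finiteIndex_of_le h5
  obtain ⟨L, hfd, hgal, hLN, hidxL⟩ := exists_field_of_open (core_normal N) hopen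
  let alg1 : Algebra k[X] L :=
    ((algebraMap (RatFunc k) L).comp (algebraMap k[X] (RatFunc k))).toAlgebra
  have tow1 : IsScalarTower k[X] (RatFunc k) L := IsScalarTower.of_algebraMap_eq fun _ => rfl
  let alg2 : Algebra k L := ((algebraMap k[X] L).comp C).toAlgebra
  have tow2 : IsScalarTower k k[X] L := IsScalarTower.of_algebraMap_eq fun _ => rfl
  -- the degree
  have hn : ((finrank (RatFunc k) L : ℕ) : k) ≠ 0 := by
    obtain ⟨m, hm⟩ := core_index (N := N) h4
    rw [← hidxL, hm, Nat.cast_mul, Nat.cast_pow, Nat.cast_ofNat]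
    exact mul_ne_zero (pow_ne_zero m h2) hidx
  -- the restriction map
  let res : (Om ≃ₐ[RatFunc k] Om) →* (L ≃ₐ[RatFunc k] L) := AlgEquiv.restrictNormalHom L
  have hres : ∀ (σ : Om ≃ₐ[RatFunc k] Om) (x : L), ((res σ x : L) : Om) = σ (x : Om) :=
    fun σ x => AlgEquiv.restrictNormal_commutes σ L x
  have hker : ∀ σ : Om ≃ₐ[RatFunc k] Om, res σ = 1 ↔ σ ∈ core N := by
    intro σ
    rw [← hLN, ← IntermediateField.restrictNormalHom_ker L, MonoidHom.mem_ker]
  have hsurj : Function.Surjective res := AlgEquiv.restrictNormalHom_surjective Om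
  choose lift hlift using hsurj
  have hrel : ∀ σ, ∃ n ∈ core N, lift (res σ) = σ * n := by
    intro σ
    refine ⟨σ⁻¹ * lift (res σ), ?_, by rw [mul_inv_cancel_left]⟩
    rw [← hker, map_mul, map_inv, hlift, inv_mul_cancel]
  set w : ℕ := GN.index with hw
  have hw1 : 1 ≤ w := Nat.one_le_iff_ne_zero.2 hfi.index_ne_zero
  have hwR : (1 : ℝ) ≤ w := by exact_mod_cast hw1
  have hwR0 : (0 : ℝ) < w := lt_of_lt_of_le zero_lt_one hwR
  let F : (L ≃ₐ[RatFunc k] L) → ℝ := fun τ => ind f (lift τ) / w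
  have hF : ∀ σ, F (res σ) = ind f σ / w := by
    intro σ
    obtain ⟨n, hn1, hn2⟩ := hrel σ
    change ind f (lift (res σ)) / w = _
    rw [hn2, ind_mul hf1 σ hn1]
  have hFc : ∀ g τ, F (g * τ * g⁻¹) = F τ := by
    intro g τ
    have h1 : g * τ * g⁻¹ = res (lift g * lift τ * (lift g)⁻¹) := by
      rw [map_mul, map_mul, map_inv, hlift, hlift]
    rw [h1, hF, ind_conj hfc]
  have hFb : ∀ τ, |F τ| ≤ 1 := by
    intro τ
    change |ind f (lift τ) / w| ≤ 1
    rw [abs_div, Nat.abs_cast, div_le_one hwR0]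
    exact ind_abs hfb _
  -- the constants
  have hexp : ∀ σ : Om ≃ₐ[RatFunc k] Om, σ ^ (4 * w) ∈ L.fixingSubgroup := by
    intro σ
    rw [hLN]
    exact pow_mem_core h4 σ
  have hcomp : ∀ τ : L ≃ₐ[RatFunc k] L, CompN k d τ ↔ ∀ x : L, IsIntegral k x → τ x = x := by
    intro τ
    refine forall_congr' fun x => forall_congr' fun hx => ?_
    rw [const_pow hexp hd hx]
  have hsum : ∑ τ ∈ Finset.univ.filter (fun τ : L ≃ₐ[RatFunc k] L => CompN k d τ), F τ = 0 := by
    have h0 : ∑ τ ∈ Finset.univ.filter (fun τ : L ≃ₐ[RatFunc k] L => CompN k d τ), F τ =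
        (∑ c : (Om ≃ₐ[RatFunc k] Om) ⧸ GN,
          ∑ τ ∈ Finset.univ.filter (fun τ : L ≃ₐ[RatFunc k] L => CompN k d τ),
            ext f (c.out * lift τ * c.out⁻¹)) / w := by
      rw [Finset.sum_comm, Finset.sum_div]
      rfl
    rw [h0]
    have h00 : ∀ c : (Om ≃ₐ[RatFunc k] Om) ⧸ GN,
        ∑ τ ∈ Finset.univ.filter (fun τ : L ≃ₐ[RatFunc k] L => CompN k d τ),
            ext f (c.out * lift τ * c.out⁻¹) = 0 := by
      intro c
      set g1 : Om ≃ₐ[RatFunc k] Om := c.out⁻¹ * (g0 : Om ≃ₐ[RatFunc k] Om) * c.out with hg1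
      have hg1c : g1 ∈ commutator (Om ≃ₐ[RatFunc k] Om) := by
        have h1 := Subgroup.Normal.conj_mem (H := commutator (Om ≃ₐ[RatFunc k] Om)) inferInstance
          _ (commutator_sub hg0) c.out⁻¹
        rwa [inv_inv] at h1
      have hgc : ∀ x : L, IsIntegral k x → res g1 x = x := by
        intro x hx
        obtain ⟨m, hm, hxm⟩ := exists_period_of_integral hx
        apply Subtype.ext
        rw [hres]
        exact commutator_cst (k := k) hg1c hm (by exact_mod_cast congrArg (Subtype.val) hxm)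
      have h1 : ∑ τ ∈ Finset.univ.filter (fun τ : L ≃ₐ[RatFunc k] L => CompN k d τ),
            ext f (c.out * lift τ * c.out⁻¹) =
          ∑ τ ∈ Finset.univ.filter (fun τ : L ≃ₐ[RatFunc k] L => CompN k d τ),
            - ext f (c.out * lift τ * c.out⁻¹) := by
        refine (Finset.sum_equiv (Equiv.mulRight (res g1)) ?_ ?_).symm
        · intro τ
          rw [Finset.mem_filter, Finset.mem_filter]
          refine and_congr (by simp) ?_
          rw [hcomp, hcomp]
          change (∀ x : L, IsIntegral k x → τ x = x) ↔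
            ∀ x : L, IsIntegral k x → (τ * res g1) x = x
          constructor
          · intro h x hx
            rw [AlgEquiv.mul_apply, hgc x hx, h x hx]
          · intro h x hx
            have h3 := h x hx
            rwa [AlgEquiv.mul_apply, hgc x hx] at h3
        · intro τ _
          have h3 : τ * res g1 = res (lift τ * g1) := by
            rw [map_mul res (lift τ) g1, hlift]
          change - ext f (c.out * lift τ * c.out⁻¹) =
            ext f (c.out * lift (τ * res g1) * c.out⁻¹)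
          obtain ⟨n, hn1, hn2⟩ := hrel (lift τ * g1)
          rw [h3, hn2]
          have h5 : c.out * (lift τ * g1 * n) * c.out⁻¹ =
              (c.out * lift τ * c.out⁻¹) * (g0 : Om ≃ₐ[RatFunc k] Om) *
                (c.out * n * c.out⁻¹) := by
            rw [hg1]
            group
          rw [h5, ext_mul hf1 _ (Subgroup.Normal.conj_mem inferInstance n hn1 _), ext_odd hgf]
      rw [Finset.sum_neg_distrib] at h1
      linarith
    rw [Finset.sum_eq_zero fun c _ => h00 c, zero_div]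
  -- inertia
  have hBad : ∀ P : k[X], P.Monic → Irreducible P → P ∉ B → UnramM L P := by
    intro P hm h hPB
    obtain ⟨π, hπ, hL⟩ := exists_locHyp (Om := Om) h2 (placeOf P h)
    have hIs := isSg_sg (Om := Om) h2 (placeOf P h) hπ
    have h1 := hBr P h hm (fun h5 => hPB (hBrB h5))
    have hsgc : sg Om (placeOf P h) ∈ core N := by
      rw [mem_core, ← hsg P h hm]
      by_contra hcon
      exact hPB (hB P hm h hcon)
    have h3 : iner (RatFunc k) (ab Om (placeOf P h)) ≤ core N :=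
      iner_le_of_sg_mem hL hIs (core N) hopen
        (fun σ hσ => ⟨2, pow_four_mem_core h4 (h1 hσ)⟩) hsgc
    refine unramM_of_iner L h fun σ hσ x => ?_
    rw [← hres, (hker σ).2 (h3 hσ)]
    rfl
  have hfr : ∀ P ∈ GoodF k L d, FrobM P (res (ph' P)) := by
    intro P hP
    rw [mem_goodF, mem_irrF] at hP
    obtain ⟨⟨hm, h, -⟩, -⟩ := hP
    rw [hph P h hm]
    exact frobM_of_isFrob L h (ph_frob _) (fun x => hres _ x)
  have key := B1_fin (k := k) (M := L) hn B hBad hd0.ne' hFc hFb (by convert hsum) hfr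
  -- the sum over `E`
  have hEsum : ∑ P ∈ E, ∑ g ∈ R, (if h : g * ph' P * g⁻¹ ∈ GN then f ⟨_, h⟩ else 0) =
      w * ∑ P ∈ GoodF k L d \ B, F (res (ph' P)) := by
    have h1 : ∀ P, ∑ g ∈ R, (if h : g * ph' P * g⁻¹ ∈ GN then f ⟨_, h⟩ else 0) =
        ind f (ph' P) := fun P => sum_rep hfc hR (ph' P)
    have h3 : ∑ P ∈ E, ind f (ph' P) = ∑ P ∈ GoodF k L d \ B, ind f (ph' P) := by
      refine Finset.sum_subset ?_ ?_
      · intro P hP
        obtain ⟨p1, p2, p3, p4, -⟩ := (hE P).1 hP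
        rw [Finset.mem_sdiff, mem_goodF, mem_irrF]
        exact ⟨⟨⟨p1, p2, p3⟩, hBad P p1 p2 p4⟩, p4⟩
      · intro P hP hPE
        rw [Finset.mem_sdiff, mem_goodF, mem_irrF] at hP
        obtain ⟨⟨⟨p1, p2, p3⟩, -⟩, p4⟩ := hP
        refine ind_of_notMem fun h5 => hPE ?_
        exact (hE P).2 ⟨p1, p2, p3, p4, h5⟩
    rw [Finset.sum_congr rfl fun P _ => h1 P, h3, Finset.mul_sum]
    refine Finset.sum_congr rfl fun P _ => ?_
    rw [hF, mul_div_cancel₀ _ hwR0.ne']
  have hsub : |∑ P ∈ GoodF k L d \ B, F (res (ph' P))| ≤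
      |∑ P ∈ GoodF k L d, F (res (ph' P))| + r := by
    have h1 : ∑ P ∈ GoodF k L d, F (res (ph' P)) =
        ∑ P ∈ GoodF k L d \ B, F (res (ph' P)) + ∑ P ∈ GoodF k L d ∩ B, F (res (ph' P)) := by
      rw [add_comm]
      exact (Finset.sum_inter_add_sum_sdiff _ _ _).symm
    have h3 : |∑ P ∈ GoodF k L d ∩ B, F (res (ph' P))| ≤ r := by
      refine (Finset.abs_sum_le_sum_abs _ _).trans ?_
      have h5 : ∑ P ∈ GoodF k L d ∩ B, |F (res (ph' P))| ≤
          ∑ P ∈ GoodF k L d ∩ B, (P.natDegree : ℝ) := by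
        refine Finset.sum_le_sum fun P hP => (hFb _).trans ?_
        rw [Finset.mem_inter, mem_goodF, mem_irrF] at hP
        rw [hP.1.1.2.2]
        exact_mod_cast hd0
      refine h5.trans ?_
      have h6 : ∑ P ∈ GoodF k L d ∩ B, P.natDegree ≤ r :=
        (Finset.sum_le_sum_of_subset Finset.inter_subset_right).trans hr
      exact_mod_cast h6
    have h7 : ∑ P ∈ GoodF k L d \ B, F (res (ph' P)) =
        ∑ P ∈ GoodF k L d, F (res (ph' P)) - ∑ P ∈ GoodF k L d ∩ B, F (res (ph' P)) := by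
      rw [h1, add_sub_cancel_right]
    rw [h7]
    exact (abs_sub _ _).trans (add_le_add le_rfl h3)
  rw [hEsum, abs_mul, Nat.abs_cast]
  -- numerics
  set I : ℝ := (N.index : ℝ) with hI
  have hI1 : 1 ≤ I := by
    rw [hI]
    exact_mod_cast Nat.one_le_iff_ne_zero.2 hfiN.index_ne_zero
  set n : ℝ := (finrank (RatFunc k) L : ℝ) with hnn
  have hn0 : 0 ≤ n := Nat.cast_nonneg _
  have hnle : n ≤ w * I ^ w := by
    rw [hnn, ← hidxL, hI]
    exact_mod_cast core_index_le (N := N)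
  have hd4 : 4 ∣ d := (Dvd.intro _ rfl).trans hd
  have hsq := Ind_sqrt hq1 hd4
  set Q : ℝ := (Nat.card k : ℝ) ^ (d / 2) with hQ
  have hqR : (1 : ℝ) ≤ Nat.card k := by exact_mod_cast hq1
  have hQ1 : 1 ≤ Q := one_le_pow₀ hqR
  have hr0 : (0 : ℝ) ≤ r := Nat.cast_nonneg r
  have hrB : ((∑ P ∈ B, P.natDegree : ℕ) : ℝ) ≤ r := by exact_mod_cast hr
  have hr1 : (1 : ℝ) ≤ (r : ℝ) + 1 := by linarith
  have hrp : (r : ℝ) + 1 ≤ ((r : ℝ) + 1) ^ (4 * w) := le_self_pow₀ hr1 (by omega)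
  have hIp : 1 ≤ I ^ (4 * w) := one_le_pow₀ hI1
  set A : ℝ := I ^ (4 * w) * ((r : ℝ) + 1) ^ (4 * w) with hA
  have hn4 : n ^ 4 ≤ (w : ℝ) ^ 4 * I ^ (4 * w) := by
    have h1 : n ^ 4 ≤ (w * I ^ w) ^ 4 := pow_le_pow_left₀ hn0 hnle 4
    refine h1.trans (le_of_eq ?_)
    rw [mul_pow, ← pow_mul, mul_comm w 4]
  have hw4 : (1 : ℝ) ≤ (w : ℝ) ^ 4 := one_le_pow₀ hwR
  have hrA : (r : ℝ) + 1 ≤ A := by
    rw [hA]
    calc (r : ℝ) + 1 ≤ 1 * ((r : ℝ) + 1) ^ (4 * w) := by rw [one_mul]; exact hrp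
      _ ≤ I ^ (4 * w) * ((r : ℝ) + 1) ^ (4 * w) := by gcongr
  have hA0 : 0 ≤ A := by linarith
  have h10 : |∑ P ∈ GoodF k L d, F (res (ph' P))| ≤
      11 * ((w : ℝ) ^ 4 * A) * (Nat.card k * Q) := by
    refine key.trans ?_
    have h11 : n ^ 4 * (((∑ P ∈ B, P.natDegree : ℕ) : ℝ) + 1) ≤ (w : ℝ) ^ 4 * A := by
      calc n ^ 4 * (((∑ P ∈ B, P.natDegree : ℕ) : ℝ) + 1)
          ≤ ((w : ℝ) ^ 4 * I ^ (4 * w)) * ((r : ℝ) + 1) ^ (4 * w) := by
            refine mul_le_mul hn4 (by linarith) (by positivity) (by positivity)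
        _ = (w : ℝ) ^ 4 * A := by rw [hA]; ring
    calc 11 * n ^ 4 * (((∑ P ∈ B, P.natDegree : ℕ) : ℝ) + 1) * √((Nat.card k : ℝ) ^ (d + 1))
        = 11 * (n ^ 4 * (((∑ P ∈ B, P.natDegree : ℕ) : ℝ) + 1)) *
          √((Nat.card k : ℝ) ^ (d + 1)) := by ring
      _ ≤ 11 * ((w : ℝ) ^ 4 * A) * (Nat.card k * Q) := by gcongr
  have h12 : (r : ℝ) ≤ (w : ℝ) ^ 4 * A * (Nat.card k * Q) := by
    have h13 : (r : ℝ) ≤ A := by linarith
    have h14 : A ≤ (w : ℝ) ^ 4 * A := le_mul_of_one_le_left hA0 hw4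
    have h15 : (1 : ℝ) ≤ Nat.card k * Q := by
      calc (1 : ℝ) = 1 * 1 := by ring
        _ ≤ Nat.card k * Q := by gcongr
    have h16 : (w : ℝ) ^ 4 * A ≤ (w : ℝ) ^ 4 * A * (Nat.card k * Q) :=
      le_mul_of_one_le_right (by positivity) h15
    linarith
  calc (w : ℝ) * |∑ P ∈ GoodF k L d \ B, F (res (ph' P))|
      ≤ w * (|∑ P ∈ GoodF k L d, F (res (ph' P))| + r) := by gcongr
    _ ≤ w * (11 * ((w : ℝ) ^ 4 * A) * (Nat.card k * Q) +
        (w : ℝ) ^ 4 * A * (Nat.card k * Q)) := by gcongr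
    _ = ((12 * w ^ 5 * Nat.card k : ℕ) : ℝ) * (I * (r + 1)) ^ (4 * w) * Q := by
        rw [mul_pow, hA]
        push_cast
        ring

end Pool.Agent.SmBn
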